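import Pool.Agent.L7h59.PP.Stm

set_option autoImplicit false

/-!
# Project PP, part FACT
-/

namespace Pool.Agent.L7h71.PP

open scoped Matrix
open Pool.Agent.H919R4.ZS (FinRes toRed L2)
open Pool.Agent.Q169.PT (Rep Tempered Van1 reg dm mk DD_apply mk_apply)
open Pool.Agent.Q111.FT (HH DD)
open Pool.Agent.L7h59.PP
open ContinuousLinearMap (adjoint)

noncomputable section

variable {G : Type} [Group G]

theorem inner_hom {H : Type} [NormedAddCommGroup H] [InnerProductSpace ℂ H] (π : Rep G H) (g : G)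
    (u v : H) : inner ℂ (π.hom g u) (π.hom g v) = inner ℂ u v :=
  (LinearIsometry.mk (π.hom g).toLinearMap (π.norm g)).inner_map_map u v

theorem hom_inv {H : Type} [NormedAddCommGroup H] [InnerProductSpace ℂ H] (π : Rep G H) (g : G)
    (v : H) : π.hom g (π.hom g⁻¹ v) = v := by
  have h : (π.hom g * π.hom g⁻¹) v = v := by
    rw [← map_mul, mul_inv_cancel, map_one]
    rfl
  exact h

theorem adj_hom (g : G) (v : L2 G) : adjoint ((reg G).hom g) v = (reg G).hom g⁻¹ v := by
  refine ext_inner_left ℂ fun u => ?_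
  rw [ContinuousLinearMap.adjoint_inner_right]
  conv_lhs => rw [← hom_inv (reg G) g v]
  rw [inner_hom]

/-- `F y = ∑ j, adjoint (y j) (z j)` -/
def FF {n : ℕ} (z : HH G n) : (Fin n → MonoidAlgebra ℤ G) →+ L2 G where
  toFun y := ∑ j, adjoint ((reg G).alg (y j)) (z j)
  map_zero' := by
    refine Finset.sum_eq_zero fun j _ => ?_
    rw [Pi.zero_apply, map_zero, map_zero]
    rfl
  map_add' x y := by
    rw [← Finset.sum_add_distrib]
    refine Finset.sum_congr rfl fun j _ => ?_
    rw [Pi.add_apply, map_add, map_add]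
    rfl

theorem FF_apply {n : ℕ} (z : HH G n) (y : Fin n → MonoidAlgebra ℤ G) :
    FF z y = ∑ j, adjoint ((reg G).alg (y j)) (z j) := rfl

theorem alg_single (g : G) : (reg G).alg (MonoidAlgebra.single g 1) = (reg G).hom g := by
  change MonoidAlgebra.liftNC _ _ _ = _
  rw [MonoidAlgebra.liftNC_single]
  change ((1 : ℤ) : L2 G →L[ℂ] L2 G) * (reg G).hom g = (reg G).hom g
  rw [Int.cast_one, one_mul]

theorem FF_mul {n : ℕ} (z : HH G n) (y : Fin n → MonoidAlgebra ℤ G) (g : G) :
    FF z (fun j => y j * MonoidAlgebra.single g 1) = (reg G).hom g⁻¹ (FF z y) := by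
  rw [FF_apply, FF_apply, map_sum]
  refine Finset.sum_congr rfl fun j _ => ?_
  rw [map_mul, alg_single, ← adj_hom]
  have h : adjoint ((reg G).alg (y j) * (reg G).hom g) =
      adjoint ((reg G).hom g) ∘L adjoint ((reg G).alg (y j)) :=
    ContinuousLinearMap.adjoint_comp _ _
  rw [h]
  rfl

theorem inner_FF {n : ℕ} (z : HH G n) (y : Fin n → MonoidAlgebra ℤ G) (u : L2 G) :
    inner ℂ (FF z y) u = ∑ j, inner ℂ (z j) ((reg G).alg (y j) u) := by
  rw [FF_apply, sum_inner]
  exact Finset.sum_congr rfl fun j _ => ContinuousLinearMap.adjoint_inner_left _ _ _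

theorem FF_d (X : FinRes G) (i : ℕ) (z : HH G (X.n (i + 1))) (hz : adjoint (DD X i) z = 0)
    (x : Fin (X.n i) → MonoidAlgebra ℤ G) : FF z (X.d i *ᵥ x) = 0 := by
  refine ext_inner_right ℂ fun u => ?_
  rw [inner_FF, inner_zero_left]
  have h1 : inner ℂ (adjoint (DD X i) z) (mk (X.n i) fun k => (reg G).alg (x k) u) = 0 := by
    rw [hz, inner_zero_left]
  rw [ContinuousLinearMap.adjoint_inner_left, PiLp.inner_apply] at h1
  rw [← h1]
  refine Finset.sum_congr rfl fun j _ => ?_
  congr 1
  rw [DD_apply]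
  unfold dm
  change (reg G).alg (∑ k, X.d i j k * x k) u = _
  rw [map_sum, sum_apply]
  refine Finset.sum_congr rfl fun k _ => ?_
  rw [map_mul]
  rfl

theorem FF_one {n : ℕ} (z : HH G n) (j : Fin n) : FF z (Pi.single j 1) = z j := by
  rw [FF_apply, Finset.sum_eq_single j]
  · rw [Pi.single_eq_same, map_one]
    have h : adjoint (1 : L2 G →L[ℂ] L2 G) = 1 := by
      refine ContinuousLinearMap.ext fun v => ext_inner_left ℂ fun u => ?_
      rw [ContinuousLinearMap.adjoint_inner_right]
      rfl
    rw [h]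
    rfl
  · intro k _ hk
    rw [Pi.single_eq_of_ne hk, map_zero, map_zero]
    rfl
  · intro h
    exact absurd (Finset.mem_univ _) h

theorem s_FACT : S_FACT := by
  classical
  intro G ι _ P X w ε h z hz
  have key : ∀ y y', ε y = ε y' → FF z y = FF z y' := by
    intro y y' hy
    have h1 : ε (y - y') = 0 := by rw [map_sub, hy, sub_self]
    obtain ⟨x, hx⟩ := (h.ker _).1 h1
    have h2 : FF z (y - y') = 0 := by
      rw [← hx]
      exact FF_d X 1 z hz x
    rw [map_sub] at h2
    exact sub_eq_zero.1 h2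
  have hs : ∀ f : Cosets P →₀ ℤ, (f.sum fun _ n => n) = f.sum (fun _ => AddMonoidHom.id ℤ) :=
    fun f => rfl
  have hex : ∀ a b : Cosets P, ∃ y, ε y = Finsupp.single a 1 - Finsupp.single b 1 := by
    intro a b
    refine (h.range _).2 ?_
    have e1 : ∀ c : Cosets P, (Finsupp.single c (1 : ℤ)).sum (fun _ => ⇑(AddMonoidHom.id ℤ)) = 1 :=
      fun c => Finsupp.sum_single_index rfl
    rw [hs, Finsupp.sum_sub_index (fun _ _ _ => map_sub _ _ _), e1, e1, sub_self]
  choose Y hY using hex
  refine ⟨fun a b => FF z (Y a b), fun a b c => ?_, fun g a b => ?_, fun h0 => ?_⟩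
  · show FF z (Y a b) + FF z (Y b c) = FF z (Y a c)
    rw [← map_add]
    refine key _ _ ?_
    rw [map_add, hY, hY, hY]
    abel
  · show FF z (Y (mv g a) (mv g b)) = ((w g : ℤ) : ℂ) • (reg G).hom g (FF z (Y a b))
    have hw : (w g⁻¹ : ℤˣ) = w g := by
      rw [map_inv]
      exact Int.units_inv_eq_self _
    have hww : ((w g : ℤˣ) : ℤ) * (w g : ℤ) = 1 := by
      rw [← Units.val_mul, Int.units_mul_self]
      rfl
    have h1 : FF z (Y (mv g a) (mv g b)) =
        FF z ((w g : ℤ) • fun j => Y a b j * MonoidAlgebra.single g⁻¹ 1) := by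
      refine key _ _ ?_
      rw [map_zsmul, h.smul, hY, hY, inv_inv, hw, smul_smul, hww, one_smul]
      have h5 : Finsupp.mapDomain (mv g) (Finsupp.single a (1 : ℤ) - Finsupp.single b 1) =
          Finsupp.mapDomain (mv g) (Finsupp.single a (1 : ℤ)) -
            Finsupp.mapDomain (mv g) (Finsupp.single b 1) :=
        map_sub (Finsupp.mapDomain.addMonoidHom (mv (P := P) g)) _ _
      rw [h5, Finsupp.mapDomain_single, Finsupp.mapDomain_single]
    rw [h1, map_zsmul, FF_mul, inv_inv, Int.cast_smul_eq_zsmul]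
  · have hF : ∀ y, FF z y = 0 := by
      intro y
      have hsum : ((ε y).sum fun _ n => n) = 0 := (h.range _).1 ⟨y, rfl⟩
      by_cases hne : Nonempty (Cosets P)
      · obtain ⟨b0⟩ := hne
        have h1 : FF z y = FF z (∑ a ∈ (ε y).support, (ε y a) • Y a b0) := by
          refine key _ _ ?_
          rw [map_sum]
          have h2 : ∀ a ∈ (ε y).support, ε (((ε y) a) • Y a b0) =
              Finsupp.single a ((ε y) a) - ((ε y) a) • Finsupp.single b0 1 := by
            intro a _
            rw [map_zsmul, hY, smul_sub, Finsupp.smul_single, smul_eq_mul, mul_one]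
          rw [Finset.sum_congr rfl h2, Finset.sum_sub_distrib, ← Finset.sum_smul]
          have h3 : ∑ a ∈ (ε y).support, (ε y) a = 0 := hsum
          rw [h3, zero_smul, sub_zero]
          exact (Finsupp.sum_single (ε y)).symm
        rw [h1, map_sum]
        refine Finset.sum_eq_zero fun a _ => ?_
        rw [map_zsmul]
        have h4 : FF z (Y a b0) = 0 := h0 a b0
        rw [h4, smul_zero]
      · have h1 : ε y = ε 0 := by
          rw [map_zero]
          ext a
          exact absurd ⟨a⟩ hne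
        rw [key _ _ h1, map_zero]
    apply PiLp.ext
    intro j
    rw [← FF_one z j, hF]
    rfl

end

end Pool.Agent.L7h71.PP
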